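import Pool.Agent.Helper45.LinK.GoalsK

/-! # Packet NS2: tuples whose linear parts are close to the identity -/

set_option autoImplicit false

open Complex Metric Set Filter Topology MeasureTheory
open scoped ContDiff ComplexConjugate ComplexOrder

namespace Pool.Agent.Helper35.LinK

open Pool.Agent.Helper95.Lin Pool.Agent.Helper45.LinK

/-! ## Algebra -/

/-- second order estimate for powers -/
lemma pow_sub_le {R : Type*} [NormedRing R] [NormOneClass R] (X : R) (hX : ‖X‖ ≤ 1) (m : ℕ) :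
    ‖(1 + X) ^ m - 1 - (m : R) * X‖ ≤ ((2 : ℝ) ^ m - m - 1) * ‖X‖ ^ 2 := by
  induction m with
  | zero => simp
  | succ m ih =>
    have e : (1 + X) ^ (m + 1) - 1 - ((m + 1 : ℕ) : R) * X =
        ((1 + X) ^ m - 1 - (m : R) * X) * (1 + X) + (m : R) * (X * X) := by
      rw [pow_succ]
      push_cast
      noncomm_ring
    rw [e]
    have h1 : ‖(1 : R) + X‖ ≤ 2 := by
      refine (norm_add_le _ _).trans ?_
      rw [norm_one]; linarith
    have h2 : ‖(m : R) * (X * X)‖ ≤ m * ‖X‖ ^ 2 := by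
      refine (norm_mul_le _ _).trans ?_
      refine mul_le_mul ?_ ?_ (norm_nonneg _) (Nat.cast_nonneg _)
      · simpa using Nat.norm_cast_le (α := R) m
      · rw [sq]; exact norm_mul_le _ _
    have h0 : (0 : ℝ) ≤ ((2 : ℝ) ^ m - m - 1) * ‖X‖ ^ 2 := (norm_nonneg _).trans ih
    calc ‖((1 + X) ^ m - 1 - (m : R) * X) * (1 + X) + (m : R) * (X * X)‖
        ≤ ‖(1 + X) ^ m - 1 - (m : R) * X‖ * ‖(1 : R) + X‖ + m * ‖X‖ ^ 2 :=
          (norm_add_le _ _).trans (add_le_add (norm_mul_le _ _) h2)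
      _ ≤ (((2 : ℝ) ^ m - m - 1) * ‖X‖ ^ 2) * 2 + m * ‖X‖ ^ 2 := by
          gcongr
      _ = ((2 : ℝ) ^ (m + 1) - (m + 1 : ℕ) - 1) * ‖X‖ ^ 2 := by
          push_cast; ring

lemma det_mul' {k : ℕ} (L M : CE k) : (L * M).det = L.det * M.det := by
  unfold ContinuousLinearMap.det
  rw [← LinearMap.det_comp]
  rfl

lemma det_one' {k : ℕ} : (1 : CE k).det = 1 := by
  unfold ContinuousLinearMap.det
  exact LinearMap.det_id

/-- bound for the norm by the determinant for quasiconformal maps -/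
lemma norm_le_of_det {k : ℕ} {c : ℝ} (hc : 1 ≤ c)
    (h : ∀ (L : CE k) (C : ℝ), 0 ≤ C → QC C L → ‖L‖ ^ k ≤ c * C ^ k * ‖L.det‖) {C : ℝ} (hC : 0 ≤ C)
    {L : CE k} (hL : QC C L) (hd : ‖L.det‖ ≤ 3) : ‖L‖ ≤ max 1 (c * C ^ k * 3) := by
  have h1 := h L C hC hL
  have h2 : ‖L‖ ^ k ≤ c * C ^ k * 3 := h1.trans (by gcongr)
  by_cases hk : k = 0
  · subst hk
    have : L = 0 := by
      ext v i
      exact i.elim0
    rw [this, norm_zero]
    exact le_trans zero_le_one (le_max_left _ _)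
  · rcases le_or_gt ‖L‖ 1 with h3 | h3
    · exact h3.trans (le_max_left _ _)
    · exact ((le_self_pow₀ h3.le hk).trans h2).trans (le_max_right _ _)

/-! ## Powers of an element -/

section powers

variable {b k : ℕ} {D : Set (Cn b)} {Γ : Type} [Group Γ] {g : Γ → Cn b → Cn b}
  {A : Γ → Cn b → CE k} {β : Γ → Cn b → Cn k}

/-- powers of an element which moves little, with determinant close to one -/
lemma pow_bound (h : LActK D g A β) {z₀ : Cn b} {r₁ : ℝ} (hr : 0 < r₁) (hD : closedBall z₀ (2 * r₁) ⊆ D)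
    {CP s : ℝ} {J : ℕ} (hs : 0 ≤ s) (hCP : CP * (J * s) ≤ r₁ / 8) (hCP0 : 0 ≤ CP) (γ : Γ)
    (hp : ∀ z ∈ ball z₀ r₁, ∀ j : ℕ, ‖g (γ ^ j) z - z‖ ≤ CP * (j * s))
    (hd : ∀ x ∈ ball z₀ r₁, ‖(A γ x).det - 1‖ ≤ s) :
    ∀ i ≤ J, ∀ z ∈ ball z₀ (3 * r₁ / 4), g (γ ^ i) z ∈ ball z₀ r₁ ∧ ‖(A (γ ^ i) z).det‖ ≤ (1 + s) ^ i := by
  have hmove : ∀ i ≤ J, ∀ z ∈ ball z₀ (3 * r₁ / 4), g (γ ^ i) z ∈ ball z₀ r₁ := by
    intro i hi z hz
    have hz' : z ∈ ball z₀ r₁ := ball_subset_ball (by linarith) hz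
    have h1 := hp z hz' i
    have h2 : CP * (i * s) ≤ CP * (J * s) := by gcongr
    have h3 : dist (g (γ ^ i) z) z ≤ r₁ / 8 := by
      rw [dist_eq_norm]; linarith
    rw [mem_ball] at hz ⊢
    calc dist (g (γ ^ i) z) z₀ ≤ dist (g (γ ^ i) z) z + dist z z₀ := dist_triangle _ _ _
      _ < r₁ := by linarith
  have hsub : ball z₀ r₁ ⊆ D := (ball_subset_closedBall.trans (closedBall_subset_closedBall (by linarith))).trans hD
  intro i
  induction i with
  | zero =>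
    intro hi z hz
    refine ⟨hmove 0 hi z hz, ?_⟩
    have hzD : z ∈ D := hsub (ball_subset_ball (by linarith) hz)
    rw [pow_zero, h.a_one z hzD, det_one']
    simp
  | succ i ih =>
    intro hi z hz
    refine ⟨hmove (i + 1) hi z hz, ?_⟩
    have hzD : z ∈ D := hsub (ball_subset_ball (by linarith) hz)
    obtain ⟨h1, h2⟩ := ih (by omega) z hz
    rw [pow_succ', h.a_mul _ _ z hzD, det_mul', norm_mul, pow_succ']
    refine mul_le_mul ?_ h2 (norm_nonneg _) (by positivity)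
    have h3 := hd _ h1
    calc ‖(A γ (g (γ ^ i) z)).det‖ = ‖1 + ((A γ (g (γ ^ i) z)).det - 1)‖ := by ring_nf
      _ ≤ 1 + s := (norm_add_le _ _).trans (by rw [norm_one]; linarith)

end powers

theorem NS2 (hNS1 : S_NS1) (hPIG : S_PIG) (hDETB : S_DETB) (hPWR : S_PWR) : S_NS2 := by
  rename_i b k D Γ _ g A β
  intro h p B P hS κ ε₀ K₁ N hR z₀ hz₀
  obtain ⟨r₁, hr₁, hD, hns⟩ := hNS1 h p B P hS κ ε₀ K₁ N hR z₀ hz₀
  refine ⟨r₁ / 4, by positivity, (closedBall_subset_closedBall (by linarith)).trans hD, ?_⟩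
  intro δ ε₁ hδ hε₁
  have hκ : 0 < κ := hR.1
  -- compact set and constants
  have hKc : IsCompact (closedBall z₀ (2 * r₁)) := isCompact_closedBall _ _
  obtain ⟨CQ, hCQ0, hCQ⟩ := h.qc _ hD hKc
  obtain ⟨c, hc1, -, hc⟩ := hDETB k
  set CA : ℝ := max 1 (c * CQ ^ k * 3) with hCAdef
  have hCA1 : 1 ≤ CA := le_max_left _ _
  have hCA0 : 0 < CA := lt_of_lt_of_le one_pos hCA1
  set η : ℝ := δ / (2 * CA ^ 2) with hηdef
  have hη0 : 0 < η := by positivity
  have hη1 : η * CA ^ 2 ≤ δ := by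
    rw [hηdef]
    have : δ / (2 * CA ^ 2) * CA ^ 2 = δ / 2 := by field_simp
    rw [this]; linarith
  have hη2 : η * CA ≤ δ := by
    refine le_trans ?_ hη1
    have : CA ≤ CA ^ 2 := by nlinarith
    gcongr
  obtain ⟨J, hJ⟩ := hPIG b k p z₀ (3 * r₁ / 4) (r₁ / 2) CA η (by positivity) (by linarith) hη0
  obtain ⟨CP, ρ, hCP0, hρ, hpwr⟩ := hPWR h.base _ hD hKc
  -- the size
  set m₀ : ℝ := min (r₁ / 8) δ with hm₀
  have hm₀0 : 0 < m₀ := lt_min (by positivity) hδ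
  set s : ℝ := min (min ρ (1 / ((J : ℝ) + 1))) (m₀ / (CP * J + 1)) with hsdef
  have hden : 0 < CP * J + 1 := by positivity
  have hs0 : 0 < s := lt_min (lt_min hρ (by positivity)) (by positivity)
  have hsρ : s ≤ ρ := (min_le_left _ _).trans (min_le_left _ _)
  have hsJ : s ≤ 1 / ((J : ℝ) + 1) := (min_le_left _ _).trans (min_le_right _ _)
  have hsm : CP * (J * s) ≤ m₀ := by
    have h1 : s ≤ m₀ / (CP * J + 1) := min_le_right _ _
    have h2 : s * (CP * J + 1) ≤ m₀ := (le_div_iff₀ hden).mp h1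
    nlinarith
  have hs8 : CP * (J * s) ≤ r₁ / 8 := hsm.trans (min_le_left _ _)
  have hsδ : CP * (J * s) ≤ δ := hsm.trans (min_le_right _ _)
  have hexp : ∀ i ≤ J, (1 + s) ^ i ≤ 3 := by
    intro i hi
    have h1 : (1 + s) ^ i ≤ (1 + s) ^ J := pow_le_pow_right₀ (by linarith) hi
    have h2 : (1 + s) ^ J ≤ (Real.exp s) ^ J := by
      gcongr
      linarith [Real.add_one_le_exp s]
    have h3 : (Real.exp s) ^ J = Real.exp (J * s) := by rw [← Real.exp_nat_mul]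
    have h4 : (J : ℝ) * s ≤ 1 := by
      have h5 : (J : ℝ) * s ≤ J * (1 / ((J : ℝ) + 1)) := by gcongr
      refine h5.trans ?_
      rw [mul_one_div, div_le_one (by positivity)]
      linarith
    have h6 : Real.exp (J * s) ≤ Real.exp 1 := Real.exp_le_exp.mpr h4
    have h7 := Real.exp_one_lt_d9
    linarith
  -- the scale
  set W : ℝ := ∑ l : Fin p, ‖adB B (Pi.single l 1)‖ with hW
  have hW0 : 0 ≤ W := Finset.sum_nonneg fun _ _ => norm_nonneg _
  have hWl : ∀ l : Fin p, ‖adB B (Pi.single l 1)‖ ≤ W := fun l =>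
    Finset.single_le_sum (f := fun l => ‖adB B (Pi.single l 1)‖) (fun _ _ => norm_nonneg _) (Finset.mem_univ l)
  have hWκ : 0 < W + κ := by linarith
  set e : ℝ := min (min (ε₁ / (J + 1)) (1 / (W + κ))) (κ / 2 / (2 ^ J * (W + κ) ^ 2)) with hedef
  have he0 : 0 < e := lt_min (lt_min (by positivity) (by positivity)) (by positivity)
  obtain ⟨ε, γ, hε0, hεe, hP, hSz, hdet⟩ := hns s e hs0 he0
  have hε1 : (J : ℝ) * ε ≤ ε₁ := by
    have h1 : ε ≤ ε₁ / (J + 1) := hεe.trans ((min_le_left _ _).trans (min_le_left _ _))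
    have h2 : ε * (J + 1) ≤ ε₁ := (le_div_iff₀ (by positivity)).mp h1
    nlinarith
  have hε2 : (W + κ) * ε ≤ 1 := by
    have h1 : ε ≤ 1 / (W + κ) := hεe.trans ((min_le_left _ _).trans (min_le_right _ _))
    have h2 : ε * (W + κ) ≤ 1 := (le_div_iff₀ hWκ).mp h1
    linarith
  have hε3 : 2 ^ J * (W + κ) ^ 2 * ε ≤ κ / 2 := by
    have h1 : ε ≤ κ / 2 / (2 ^ J * (W + κ) ^ 2) := hεe.trans (min_le_right _ _)
    have h2 : ε * (2 ^ J * (W + κ) ^ 2) ≤ κ / 2 := (le_div_iff₀ (by positivity)).mp h1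
    linarith
  -- facts about balls
  have hsubK : ball z₀ r₁ ⊆ closedBall z₀ (2 * r₁) :=
    ball_subset_closedBall.trans (closedBall_subset_closedBall (by linarith))
  have hsubD : ball z₀ r₁ ⊆ D := hsubK.trans hD
  have hact := h.base.act
  -- powers of the elements and of their inverses
  have hpow : ∀ l : Fin p, (∀ z ∈ ball z₀ r₁, ∀ j : ℕ, ‖g ((γ l) ^ j) z - z‖ ≤ CP * (j * s)) ∧
      (∀ z ∈ ball z₀ r₁, ∀ j : ℕ, ‖g ((γ l)⁻¹ ^ j) z - z‖ ≤ CP * (j * s)) := by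
    intro l
    exact ⟨fun z hz j => (hpwr (γ l) s hsρ z (hsubK hz) (hSz l z hz).1).2 j,
      fun z hz j => (hpwr (γ l)⁻¹ s hsρ z (hsubK hz) (hSz l z hz).2).2 j⟩
  have hb1 : ∀ l : Fin p, ∀ i ≤ J, ∀ z ∈ ball z₀ (3 * r₁ / 4), g ((γ l) ^ i) z ∈ ball z₀ r₁ ∧
      ‖A ((γ l) ^ i) z‖ ≤ CA := by
    intro l i hi z hz
    obtain ⟨h1, h2⟩ := pow_bound h hr₁ hD hs0.le hs8 hCP0 (γ l) (hpow l).1 (fun x hx => (hdet l x hx).1) i hi z hz
    have hz' : z ∈ ball z₀ r₁ := ball_subset_ball (by linarith) hz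
    exact ⟨h1, norm_le_of_det hc1 hc hCQ0 (hCQ _ z (hsubK hz') (hsubK h1)) (h2.trans (hexp i hi))⟩
  have hb2 : ∀ l : Fin p, ∀ i ≤ J, ∀ z ∈ ball z₀ (3 * r₁ / 4), g ((γ l)⁻¹ ^ i) z ∈ ball z₀ r₁ ∧
      ‖A ((γ l)⁻¹ ^ i) z‖ ≤ CA := by
    intro l i hi z hz
    obtain ⟨h1, h2⟩ := pow_bound h hr₁ hD hs0.le hs8 hCP0 (γ l)⁻¹ (hpow l).2 (fun x hx => (hdet l x hx).2) i hi z hz
    have hz' : z ∈ ball z₀ r₁ := ball_subset_ball (by linarith) hz
    exact ⟨h1, norm_le_of_det hc1 hc hCQ0 (hCQ _ z (hsubK hz') (hsubK h1)) (h2.trans (hexp i hi))⟩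
  have hmv : ∀ l : Fin p, ∀ i ≤ J, ∀ z ∈ ball z₀ r₁, ‖g ((γ l)⁻¹ ^ i) z - z‖ ≤ r₁ / 8 := by
    intro l i hi z hz
    refine ((hpow l).2 z hz i).trans (le_trans ?_ hs8)
    gcongr
  -- pigeon hole
  obtain ⟨i, j, hij, hjJ, hclose⟩ := hJ (fun j z l => A ((γ l) ^ j) z) (by
    intro j hj
    refine ⟨?_, ?_⟩
    · rw [differentiableOn_pi]
      intro l
      exact (h.a_holo _).mono ((ball_subset_ball (by linarith)).trans hsubD)
    · intro z hz
      rw [pi_norm_le_iff_of_nonneg hCA0.le]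
      intro l
      exact (hb1 l j hj z hz).2)
  obtain ⟨m, rfl⟩ : ∃ m, j = m + i := ⟨j - i, by omega⟩
  have hm1 : 1 ≤ m := by omega
  have hmJ : m ≤ J := by omega
  have hiJ : i ≤ J := by omega
  have hkey : ∀ l : Fin p, ∀ z ∈ ball z₀ (3 * r₁ / 8), ‖A ((γ l) ^ m) z - 1‖ ≤ η * CA := by
    intro l z hz
    have hz1 : z ∈ ball z₀ r₁ := ball_subset_ball (by linarith) hz
    have hz3 : z ∈ ball z₀ (3 * r₁ / 4) := ball_subset_ball (by linarith) hz
    have hzD := hsubD hz1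
    set y := g ((γ l)⁻¹ ^ i) z with hy
    have hyz := hmv l i hiJ z hz1
    have hyb : y ∈ ball z₀ (r₁ / 2) := by
      rw [mem_ball] at hz ⊢
      calc dist y z₀ ≤ dist y z + dist z z₀ := dist_triangle _ _ _
        _ < r₁ / 2 := by rw [dist_eq_norm]; linarith
    have hyD : y ∈ D := hact.maps _ z hzD
    have hcl := hclose y (ball_subset_closedBall hyb)
    have hcl2 : ‖A ((γ l) ^ (m + i)) y - A ((γ l) ^ i) y‖ ≤ η := by
      refine le_trans ?_ hcl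
      exact norm_le_pi_norm ((fun l => A ((γ l) ^ (m + i)) y) - fun l => A ((γ l) ^ i) y) l
    have hgy : g ((γ l) ^ i) y = z := by
      rw [hy, ← hact.mul _ _ z hzD, ← mul_pow_aux (γ l) i, hact.one z hzD]
    have e1 : A ((γ l) ^ (m + i)) y = A ((γ l) ^ m) z * A ((γ l) ^ i) y := by
      rw [pow_add, h.a_mul _ _ y hyD, hgy]
    have e2 : A ((γ l) ^ i) y * A ((γ l)⁻¹ ^ i) z = 1 := by
      rw [hy, ← h.a_mul _ _ z hzD, ← mul_pow_aux (γ l) i, h.a_one z hzD]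
    have e3 : A ((γ l) ^ m) z - 1 =
        (A ((γ l) ^ (m + i)) y - A ((γ l) ^ i) y) * A ((γ l)⁻¹ ^ i) z := by
      rw [sub_mul, e2, e1, mul_assoc, e2, mul_one]
    rw [e3]
    exact (norm_mul_le _ _).trans (mul_le_mul hcl2 (hb2 l i hiJ z hz3).2 (norm_nonneg _) hη0.le)
  refine ⟨m * ε, fun l => (γ l) ^ m, by positivity, ?_, ?_, ?_, ?_⟩
  · refine le_trans ?_ hε1
    have : (m : ℝ) ≤ J := by exact_mod_cast hmJ
    gcongr
  · intro l
    set a := adB B (Pi.single l 1) with ha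
    set E := P (γ l) - 1 - ε • a with hE
    have hX : P (γ l) = 1 + (ε • a + E) := by rw [hE]; abel
    have hnE : ‖E‖ ≤ κ / 2 * ε := hP l
    have hnX : ‖ε • a + E‖ ≤ (W + κ) * ε := by
      refine (norm_add_le _ _).trans ?_
      rw [norm_smul, Real.norm_of_nonneg hε0.le]
      have := hWl l
      nlinarith
    have hnX1 := hnX.trans hε2
    have hne : Nonempty (Fin p) := ⟨⟨0, hS.lie.pos⟩⟩
    have hnt : Nontrivial (Fin p → ℝ) := inferInstance
    have hno : NormOneClass (Endo p) := inferInstance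
    have hp1 := pow_sub_le (ε • a + E) hnX1 m
    rw [map_pow, hX]
    have e4 : (1 + (ε • a + E)) ^ m - 1 - ((m : ℝ) * ε) • a =
        ((1 + (ε • a + E)) ^ m - 1 - (m : Endo p) * (ε • a + E)) + (m : Endo p) * E := by
      have e5 : ((m : ℝ) * ε) • a = (m : Endo p) * (ε • a) := by
        rw [mul_smul, ← nsmul_eq_mul, Nat.cast_smul_eq_nsmul]
      rw [e5, mul_add]
      abel
    rw [e4]
    have hmE : ‖(m : Endo p) * E‖ ≤ m * (κ / 2 * ε) := by
      rw [← nsmul_eq_mul]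
      refine (norm_nsmul_le).trans ?_
      gcongr
    have h2m : ((2 : ℝ) ^ m - m - 1) * ‖ε • a + E‖ ^ 2 ≤ κ / 2 * ε := by
      have h1 : (2 : ℝ) ^ m - m - 1 ≤ 2 ^ J := by
        have : (2 : ℝ) ^ m ≤ 2 ^ J := pow_le_pow_right₀ (by norm_num) hmJ
        have : (0 : ℝ) ≤ m := Nat.cast_nonneg _
        linarith
      calc ((2 : ℝ) ^ m - m - 1) * ‖ε • a + E‖ ^ 2 ≤ 2 ^ J * ((W + κ) * ε) ^ 2 := by gcongr
        _ = (2 ^ J * (W + κ) ^ 2 * ε) * ε := by ring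
        _ ≤ κ / 2 * ε := by gcongr
    have hm1' : (1 : ℝ) ≤ m := by exact_mod_cast hm1
    calc _ ≤ ‖(1 + (ε • a + E)) ^ m - 1 - (m : Endo p) * (ε • a + E)‖ + ‖(m : Endo p) * E‖ := norm_add_le _ _
      _ ≤ κ / 2 * ε + m * (κ / 2 * ε) := add_le_add (hp1.trans h2m) hmE
      _ ≤ κ * (m * ε) := by nlinarith [mul_pos hκ hε0]
  · intro l x hx
    have hx1 : x ∈ ball z₀ r₁ := ball_subset_ball (by linarith) hx
    have hle : CP * (m * s) ≤ δ := by
      refine le_trans ?_ hsδ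
      gcongr
    refine ⟨((hpow l).1 x hx1 m).trans hle, ?_⟩
    rw [← inv_pow]
    exact ((hpow l).2 x hx1 m).trans hle
  · intro l z hz
    have hz1 : z ∈ ball z₀ r₁ := ball_subset_ball (by linarith) hz
    have hz3 : z ∈ ball z₀ (3 * r₁ / 4) := ball_subset_ball (by linarith) hz
    have hz8 : z ∈ ball z₀ (3 * r₁ / 8) := ball_subset_ball (by linarith) hz
    have hzD := hsubD hz1
    refine ⟨(hkey l z hz8).trans hη2, ?_⟩
    rw [← inv_pow]
    set y := g ((γ l)⁻¹ ^ m) z with hy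
    have hyz := hmv l m hmJ z hz1
    have hyb : y ∈ ball z₀ (3 * r₁ / 8) := by
      rw [mem_ball] at hz ⊢
      calc dist y z₀ ≤ dist y z + dist z z₀ := dist_triangle _ _ _
        _ < 3 * r₁ / 8 := by rw [dist_eq_norm]; linarith
    have e2 : A ((γ l) ^ m) y * A ((γ l)⁻¹ ^ m) z = 1 := by
      rw [hy, ← h.a_mul _ _ z hzD, ← mul_pow_aux (γ l) m, h.a_one z hzD]
    have e3 : A ((γ l)⁻¹ ^ m) z - 1 = (1 - A ((γ l) ^ m) y) * A ((γ l)⁻¹ ^ m) z := by
      rw [sub_mul, e2, one_mul]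
    rw [e3]
    have h1 : ‖1 - A ((γ l) ^ m) y‖ ≤ η * CA := by
      rw [norm_sub_rev]; exact hkey l y hyb
    refine (norm_mul_le _ _).trans ((mul_le_mul h1 (hb2 l m hmJ z hz3).2 (norm_nonneg _) (by positivity)).trans ?_)
    calc η * CA * CA = η * CA ^ 2 := by ring
      _ ≤ δ := hη1
where
  mul_pow_aux {G : Type} [Group G] (x : G) (i : ℕ) : 1 = x ^ i * x⁻¹ ^ i := by
    rw [inv_pow, mul_inv_cancel]

end Pool.Agent.Helper35.LinK
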